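import Pool.Agent.TH206.Fro.Defs

/-! Pairs of a monomial and a monomial in the later variables. -/

set_option autoImplicit false

namespace Pool.Agent.TH147.NM

open Finset Pool.Agent.TH206.Fro
open scoped Pointwise

/-- The monomials of degree `e` in the variables after those of `a`. -/
noncomputable def HS (n e : ℕ) (a : Fin n →₀ ℕ) : Finset (Fin n →₀ ℕ) :=
  (Mon n e).filter (fun w => ∀ i j, a i ≠ 0 → w j ≠ 0 → i ≤ j)

lemma exists_lt {n k : ℕ} {a b : Fin n →₀ ℕ} (ha : ∑ i, a i = k) (hb : ∑ i, b i = k)
    (h : a ≠ b) : ∃ i, a i < b i := by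
  by_contra hcon
  push Not at hcon
  have h1 : ∑ i, b i = ∑ i, a i := by rw [ha, hb]
  have h2 := (Finset.sum_eq_sum_iff_of_le (fun i _ => hcon i)).1 h1
  exact h (Finsupp.ext fun i => (h2 i (mem_univ i)).symm)

lemma sum_HS_le (n k e : ℕ) : ∑ a ∈ Mon n k, (HS n e a).card ≤ (Mon n (k + e)).card := by
  classical
  rw [← Finset.card_sigma]
  refine Finset.card_le_card_of_injOn (fun q => q.1 + q.2) ?_ ?_
  · rintro ⟨a, w⟩ hq
    rw [Finset.mem_coe, Finset.mem_sigma] at hq
    have h1 := mem_Mon.1 hq.1
    have h2 := mem_Mon.1 (Finset.mem_filter.1 hq.2).1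
    refine mem_Mon.2 ?_
    simp only [Finsupp.add_apply, sum_add_distrib]
    rw [h1, h2]
  · rintro ⟨a, w⟩ hq ⟨a', w'⟩ hq' h
    rw [Finset.mem_coe, Finset.mem_sigma] at hq hq'
    simp only at h
    have hs : ∀ i, a i + w i = a' i + w' i := fun i => by
      have := DFunLike.congr_fun h i
      simpa using this
    have h1 := mem_Mon.1 hq.1
    have h1' := mem_Mon.1 hq'.1
    have h2 := (Finset.mem_filter.1 hq.2).2
    have h2' := (Finset.mem_filter.1 hq'.2).2
    have haa : a = a' := by
      by_contra hne
      obtain ⟨i, hi⟩ := exists_lt h1 h1' hne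
      obtain ⟨j, hj⟩ := exists_lt h1' h1 (Ne.symm hne)
      have e1 := hs i
      have e2 := hs j
      have h3 := h2 j i (by simp only at *; omega) (by simp only at *; omega)
      have h4 := h2' i j (by simp only at *; omega) (by simp only at *; omega)
      have h5 : i = j := le_antisymm h4 h3
      rw [h5] at hi
      omega
    subst haa
    have : w = w' := Finsupp.ext fun i => by
      have := hs i
      omega
    rw [this]

end Pool.Agent.TH147.NM
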